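import Mathlib

set_option autoImplicit false

namespace Pool.Agent.Results.MP_427463_al.Yes

open QuaternionGroup

/-- A CA-group: centralizers of nontrivial elements are abelian. -/
def IsCA (G : Type) [Group G] : Prop :=
  ∀ g : G, g ≠ 1 → IsMulCommutative (Subgroup.centralizer {g})

/-- The generalized quaternion group of order sixteen. -/
abbrev Q := QuaternionGroup 4

instance : TopologicalSpace Q := ⊥
instance : DiscreteTopology Q := ⟨rfl⟩

/-- The ambient semidirect product. -/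
def E := (Q → ℤ_[2]) × Q

noncomputable instance : TopologicalSpace E :=
  inferInstanceAs (TopologicalSpace ((Q → ℤ_[2]) × Q))
instance : CompactSpace E := inferInstanceAs (CompactSpace ((Q → ℤ_[2]) × Q))
instance : T2Space E := inferInstanceAs (T2Space ((Q → ℤ_[2]) × Q))
instance : TotallyDisconnectedSpace E :=
  inferInstanceAs (TotallyDisconnectedSpace ((Q → ℤ_[2]) × Q))

noncomputable instance : Group E where
  mul x y := (fun p => x.1 p + y.1 (p * x.2), x.2 * y.2)
  one := (fun _ => 0, 1)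
  inv x := (fun p => -x.1 (p * x.2⁻¹), x.2⁻¹)
  mul_assoc x y z := Prod.ext (funext fun p => by
    change x.1 p + y.1 (p * x.2) + z.1 (p * (x.2 * y.2)) = x.1 p + (y.1 _ + z.1 (p * x.2 * y.2))
    rw [mul_assoc, add_assoc]) (mul_assoc x.2 y.2 z.2)
  one_mul x := Prod.ext (funext fun p => by
    change 0 + x.1 (p * 1) = _
    simp) (one_mul x.2)
  mul_one x := Prod.ext (funext fun p => add_zero (x.1 p)) (mul_one x.2)
  inv_mul_cancel x := Prod.ext (funext fun p => neg_add_cancel (x.1 _)) (inv_mul_cancel x.2)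

theorem mul_1 (x y : E) (p : Q) : (x * y).1 p = x.1 p + y.1 (p * x.2) := rfl

theorem ev : Continuous fun z : (Q → ℤ_[2]) × Q => z.1 z.2 :=
  continuous_prod_of_discrete_right.mpr fun q => continuous_apply q

instance : IsTopologicalGroup E where
  continuous_mul := by
    refine Continuous.prodMk (continuous_pi fun p => ?_) ?_
    · exact ((continuous_apply p).comp continuous_fst.fst).add (ev.comp (continuous_snd.fst.prodMk
        ((continuous_of_discreteTopology (f := fun q => p * q)).comp continuous_fst.snd)))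
    · exact (continuous_of_discreteTopology (f := fun z : Q × Q => z.1 * z.2)).comp
        (continuous_fst.snd.prodMk continuous_snd.snd)
  continuous_inv := by
    refine Continuous.prodMk (continuous_pi fun p => ?_) ?_
    · exact (ev.comp (continuous_fst.prodMk
        ((continuous_of_discreteTopology (f := fun q => p * q⁻¹)).comp continuous_snd))).neg
    · exact (continuous_of_discreteTopology (f := fun q : Q => q⁻¹)).comp continuous_snd

/-- The character with kernel the cyclic subgroup of index two. -/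
def χ : Q → ZMod 2
  | a _ => 0
  | xa _ => 1

/-- Sum over four consecutive residues. -/
def s (g : ZMod 8 → ZMod 2) : ZMod 2 := g 0 + g 1 + g 2 + g 3

theorem s_inv : ∀ g : ZMod 8 → ZMod 2, (∀ i, g (i + 4) = g i) → ∀ k,
    s (fun i => g (i + k)) = s g ∧ s (fun i => g (k - i)) = s g := by decide +kernel

/-- Reduction modulo two. -/
noncomputable abbrev ρ : ℤ_[2] →+* ZMod 2 := PadicInt.toZMod

/-- The parity functional. -/
noncomputable def σ (f : Q → ℤ_[2]) : ZMod 2 := s (fun i => ρ (f (a i))) + s fun i => ρ (f (xa i))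

theorem per {f : Q → ℤ_[2]} (h : ∀ p, f (a 4 * p) = -f p) :
    (∀ i : ZMod 8, ρ (f (a (i + 4))) = ρ (f (a i))) ∧
      ∀ i : ZMod 8, ρ (f (xa (i + 4))) = ρ (f (xa i)) := by
  have e : ∀ i : ZMod 8, (a (i + 4) : Q) = a 4 * a i ∧ (xa (i + 4) : Q) = a 4 * xa i := by decide
  exact ⟨fun i => by rw [(e i).1, h, map_neg, ZMod.neg_eq_self_mod_two],
    fun i => by rw [(e i).2, h, map_neg, ZMod.neg_eq_self_mod_two]⟩

theorem σ_inv {f : Q → ℤ_[2]} (h : ∀ p, f (a 4 * p) = -f p) (q : Q) :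
    σ (fun p => f (p * q)) = σ f := by
  rcases q with k | k
  · simp only [σ, a_mul_a, xa_mul_a]
    rw [(s_inv (fun i => ρ (f (a i))) (per h).1 k).1, (s_inv (fun i => ρ (f (xa i))) (per h).2 k).1]
  · simp only [σ, a_mul_xa, xa_mul_xa]
    rw [(s_inv (fun i => ρ (f (a i))) (per h).1 (((4 : ℕ) : ZMod 8) + k)).2,
      (s_inv (fun i => ρ (f (xa i))) (per h).2 k).2, add_comm]

theorem σ_add (f g : Q → ℤ_[2]) : σ (fun p => f p + g p) = σ f + σ g := by
  simp only [σ, s, map_add]
  ring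

theorem σ_neg (f : Q → ℤ_[2]) : σ (fun p => -f p) = σ f := by
  simp only [σ, s, map_neg, ZMod.neg_eq_self_mod_two]

/-- The profinite group. -/
def G : Subgroup E where
  carrier := {x | (∀ p, x.1 (a 4 * p) = -x.1 p) ∧ σ x.1 = χ x.2}
  one_mem' := ⟨fun _ => neg_zero.symm, by
    change σ (fun _ => 0) = 0
    simp [σ, s]⟩
  mul_mem' := fun {x y} hx hy => ⟨fun p => by rw [mul_1, mul_1, mul_assoc, hx.1, hy.1, neg_add], by
    change σ (fun p => x.1 p + y.1 (p * x.2)) = χ (x.2 * y.2)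
    rw [σ_add, σ_inv hy.1, hx.2, hy.2]
    exact (by decide : ∀ q r : Q, χ q + χ r = χ (q * r)) _ _⟩
  inv_mem' := fun {x} hx => ⟨fun p => by
    change -x.1 (a 4 * p * x.2⁻¹) = - -x.1 (p * x.2⁻¹)
    rw [mul_assoc, hx.1], by
    change σ (fun p => -x.1 (p * x.2⁻¹)) = χ x.2⁻¹
    rw [σ_neg, σ_inv hx.1, hx.2]
    exact (by decide : ∀ q : Q, χ q = χ q⁻¹) _⟩

theorem cont_ρ : Continuous ρ := by
  refine continuous_of_continuousAt_zero ρ ?_
  rw [ContinuousAt, map_zero, nhds_discrete (ZMod 2), Filter.tendsto_pure]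
  filter_upwards [Metric.ball_mem_nhds (0 : ℤ_[2]) one_pos] with x hx
  rw [← RingHom.mem_ker, PadicInt.ker_toZMod, IsLocalRing.mem_maximalIdeal, PadicInt.mem_nonunits]
  simpa using hx

theorem closed : IsClosed (G : Set E) := by
  have h (p : Q) : Continuous fun x : E => x.1 p := (continuous_apply p).comp continuous_fst
  have h' (p : Q) : Continuous fun x : E => ρ (x.1 p) := cont_ρ.comp (h p)
  refine IsClosed.inter (s₁ := {x : E | ∀ p, x.1 (a 4 * p) = -x.1 p}) ?_ (isClosed_eq ?_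
    ((continuous_of_discreteTopology (f := χ)).comp continuous_snd))
  · rw [Set.ofPred_forall]
    exact isClosed_iInter fun p => isClosed_eq (h _) (h p).neg
  · exact ((((h' _).add (h' _)).add (h' _)).add (h' _)).add
      ((((h' _).add (h' _)).add (h' _)).add (h' _))

/-- The projection. -/
def π : G →* Q := ⟨⟨fun x => x.1.2, rfl⟩, fun _ _ => rfl⟩

theorem ker_comm {x y : G} (hx : π x = 1) (hy : π y = 1) : x * y = y * x := by
  have hx' : x.1.2 = 1 := hx
  have hy' : y.1.2 = 1 := hy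
  refine Subtype.ext (Prod.ext (funext fun p => ?_) ?_)
  · change x.1.1 p + y.1.1 (p * x.1.2) = y.1.1 p + x.1.1 (p * y.1.2)
    rw [hx', hy', mul_one, add_comm]
  · change x.1.2 * y.1.2 = y.1.2 * x.1.2
    rw [hx', hy']

theorem cen {g h : G} (hg : π g = a 4) (hh : h ∈ Subgroup.centralizer {g}) (p : Q) :
    2 * h.1.1 p = g.1.1 p - g.1.1 (p * π h) := by
  have e := congrArg (fun x : G => x.1.1 p) (Subgroup.mem_centralizer_singleton_iff.mp hh)
  change h.1.1 p + g.1.1 (p * π h) = g.1.1 p + h.1.1 (p * π g) at e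
  rw [hg, (by decide : ∀ q : Q, q * a 4 = a 4 * q) p, h.2.1] at e
  linear_combination e

theorem key {g u y : G} (hg : π g = a 4) (hu : u ∈ Subgroup.centralizer {g}) (hu' : π u = a 2)
    (hy : y ∈ Subgroup.centralizer {g}) {k : ZMod 8} (hy' : π y = xa k) : False := by
  have h1 (p : Q) : ρ (g.1.1 (p * a 2)) = ρ (g.1.1 p) := by
    have := congrArg ρ (cen hg hu p)
    rw [hu', map_mul, map_ofNat, show (2 : ZMod 2) = 0 from rfl, zero_mul, map_sub] at this
    linear_combination this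
  have h2 (i : ZMod 8) : ρ (y.1.1 (a i)) + ρ (y.1.1 (xa (k - i))) = ρ (g.1.1 (a i)) := by
    have e1 := cen hg hy (a i)
    have e2 := cen hg hy (a i * xa k)
    rw [hy'] at e1 e2
    rw [(by decide : ∀ (q : Q) (k : ZMod 8), q * xa k * xa k = a 4 * q), g.2.1] at e2
    rw [← map_add, ← a_mul_xa]
    exact congrArg ρ (mul_left_cancel₀ two_ne_zero (by linear_combination e1 + e2))
  have h3 : σ y.1.1 = χ (π y) := y.2.2
  rw [hy', σ, ← (s_inv (fun i => ρ (y.1.1 (xa i))) (per y.2.1).2 k).2] at h3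
  have h4 : ρ (g.1.1 (a 2)) = ρ (g.1.1 (a 0)) := h1 (a 0)
  have h5 : ρ (g.1.1 (a 3)) = ρ (g.1.1 (a 1)) := h1 (a 1)
  have h6 : (2 : ZMod 2) = 0 := rfl
  have : (1 : ZMod 2) = 0 := by
    simp only [s, χ] at h3
    linear_combination h2 0 + h2 1 + h2 2 + h2 3 - h3 + h4 + h5 +
      (ρ (g.1.1 (a 0)) + ρ (g.1.1 (a 1))) * h6
  exact absurd this (by decide)

theorem ca : IsCA G := by
  have pw : ∀ q : Q, q ≠ 1 → ∃ m : Fin 8, q ^ (m : ℕ) = a 4 := by decide
  intro g hg
  refine ⟨⟨fun h₁ h₂ => Subtype.ext ?_⟩⟩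
  obtain ⟨h₁, e₁⟩ := h₁
  obtain ⟨h₂, e₂⟩ := h₂
  change h₁ * h₂ = h₂ * h₁
  by_cases hq : π g = 1
  · have : ∀ h ∈ Subgroup.centralizer {g}, π h = 1 := fun h hh => by
      by_contra hc
      obtain ⟨m, hm⟩ := pw _ hc
      refine hg (Subtype.ext (Prod.ext (funext fun p => ?_) hq))
      have e := congrArg (fun x : G => x.1.1 p)
        (Subgroup.mem_centralizer_singleton_iff.mp (pow_mem hh m))
      change (h ^ (m : ℕ)).1.1 p + g.1.1 (p * π (h ^ (m : ℕ))) =
        g.1.1 p + (h ^ (m : ℕ)).1.1 (p * π g) at e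
      rw [hq, map_pow, hm, mul_one, (by decide : ∀ q : Q, q * a 4 = a 4 * q) p, g.2.1] at e
      exact mul_left_cancel₀ two_ne_zero (show 2 * g.1.1 p = 2 * 0 by linear_combination -e)
    exact ker_comm (this _ e₁) (this _ e₂)
  · obtain ⟨m, hm⟩ := pw _ hq
    rw [← map_pow] at hm
    have hc : Subgroup.centralizer {g} ≤ Subgroup.centralizer {g ^ (m : ℕ)} := fun h hh =>
      Subgroup.mem_centralizer_singleton_iff.mpr
        (Commute.pow_right (Subgroup.mem_centralizer_singleton_iff.mp hh) _)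
    replace e₁ := hc e₁
    replace e₂ := hc e₂
    by_cases h : π h₁ * π h₂ = π h₂ * π h₁
    · refine Subtype.ext (Prod.ext (funext fun p => mul_left_cancel₀ two_ne_zero ?_) h)
      rw [cen hm (mul_mem e₁ e₂), cen hm (mul_mem e₂ e₁), map_mul, map_mul, h]
    · obtain ⟨⟨k, hk⟩, n, hn⟩ := (by decide : ∀ q r : Q, q * r ≠ r * q →
        (∃ k : ZMod 8, q = xa k ∨ r = xa k) ∧ ∃ n : Fin 8, q ^ (n : ℕ) = a 2 ∨ r ^ (n : ℕ) = a 2 ∨
          (q * r) ^ (n : ℕ) = a 2) _ _ h
      obtain ⟨u, hu, hu'⟩ : ∃ u ∈ Subgroup.centralizer {g ^ (m : ℕ)}, π u = a 2 := by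
        rcases hn with hn | hn | hn
        · exact ⟨_, pow_mem e₁ n, by rw [map_pow, hn]⟩
        · exact ⟨_, pow_mem e₂ n, by rw [map_pow, hn]⟩
        · exact ⟨_, pow_mem (mul_mem e₁ e₂) n, by rw [map_pow, map_mul, hn]⟩
      rcases hk with hk | hk
      · exact (key hm hu hu' e₁ hk).elim
      · exact (key hm hu hu' e₂ hk).elim

theorem surj : Function.Surjective π := by
  rintro (k | k)
  · exact ⟨⟨(fun _ => 0, a k), fun _ => neg_zero.symm, by simp [σ, s, χ]⟩, rfl⟩
  · let c : Q → ℤ := fun p => if p = a 0 then 1 else if p = a 4 then -1 else 0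
    refine ⟨⟨(fun p => c p, xa k), fun p => ?_, ?_⟩, rfl⟩
    · change ((c (a 4 * p) : ℤ) : ℤ_[2]) = -(c p : ℤ)
      rw [(by decide : ∀ p, c (a 4 * p) = -c p) p, Int.cast_neg]
    · simp only [σ, s, map_intCast, χ]
      decide

theorem result : ∃ n : ℕ, 4 ≤ n ∧ ∃ (G : Type) (_ : Group G) (_ : TopologicalSpace G),
    IsTopologicalGroup G ∧ CompactSpace G ∧ T2Space G ∧ TotallyDisconnectedSpace G ∧ IsCA G ∧
    ∃ (N : Subgroup G) (_ : N.Normal), IsClosed (N : Set G) ∧ IsMulCommutative N ∧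
      Nonempty (G ⧸ N ≃* QuaternionGroup (2 ^ (n - 2))) :=
  ⟨4, le_rfl, G, inferInstance, inferInstance, inferInstance,
    isCompact_iff_compactSpace.mp closed.isCompact, inferInstance, inferInstance, ca, π.ker,
    inferInstance, isClosed_eq (continuous_snd.comp continuous_subtype_val) continuous_const,
    ⟨⟨fun x y => Subtype.ext (ker_comm x.2 y.2)⟩⟩,
    ⟨QuotientGroup.quotientKerEquivOfSurjective π surj⟩⟩

end Pool.Agent.Results.MP_427463_al.Yes
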